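import Pool.Agent.H240Z.QcMain

namespace Pool.Agent.Results.MP_c5bc55_gt.ANotConstant

open UpperHalfPlane Pool.Agent.H240Z.Qc

/-- There is an infinitely generated Fuchsian group of the first kind on whose quasiconformal
deformation space the critical exponent takes two different values. -/
theorem result : ∃ Γ : Subgroup (Equiv.Perm ℍ), IsFuchsian Γ ∧ FirstKind Γ ∧ ¬ Γ.FG ∧
    ∃ w₁ w₂ : Equiv.Perm ℍ, InTqc Γ w₁ ∧ InTqc Γ w₂ ∧
      (convSet (conjBy w₁ Γ)).Nonempty ∧ (convSet (conjBy w₂ Γ)).Nonempty ∧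
      delta (conjBy w₁ Γ) < delta (conjBy w₂ Γ) :=
  main

end Pool.Agent.Results.MP_c5bc55_gt.ANotConstant
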